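import Mathlib
import Pool.Agent.R404.WZ.N

/-!
# Many multiple zeta values of the same weight without relations of small height

Let `η < 1` and `γ < 1 - η`. For every large weight `k` there is a set `T` of at least `k ^ η` indices of
weight `k` and of the same depth `D = D(η)`, all arguments being at least `k / (2 D)`, such that no
combination of the values `ζ(w)`, `w ∈ T`, and of `1` with integer coefficients, not all zero, of
absolute value at most `2 ^ (k ^ γ)` on `T` is equal to a real combination, with coefficients at most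
`C ^ k`, of arbitrarily many multiple zeta values of weight at most `κ k` with at least `ε k`
arguments `≥ 2`. Here `ε > 0` is arbitrarily small; if `ε < 1 / 4` then this holds for almost all of the
`2 ^ (k - 2)` multiple zeta values of weight `k`.

The theorem is from the library (`Pool.Agent.R404.WZ`, helper404), which rests on
`Pool.Agent.Y777.AM` and `Pool.Agent.Y760.ZG`.
-/

set_option autoImplicit false

namespace Pool.Agent.Results.MP_56e040_nt.ManyOfOneWeight

/-- `trunc [s_1, ..., s_r] m` is the sum of `∏ n_i ^ (-s_i)` over `m > n_1 > ... > n_r ≥ 1` -/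
noncomputable def trunc : List ℕ → ℕ → ℝ
  | [], _ => 1
  | s :: l, m => ∑ j ∈ Finset.Ico 1 m, trunc l j / (j : ℝ) ^ s

/-- the multiple zeta value `ζ(s_1, ..., s_r)`, `s_1` belongs to the largest variable -/
noncomputable def mzv : List ℕ → ℝ
  | [] => 1
  | s :: l => ∑' m : ℕ, trunc l (m + 1) / ((m + 1 : ℕ) : ℝ) ^ s

/-- admissible indices: `(s_1, ..., s_r)` with `r ≥ 1`, `s_1 ≥ 2` and all `s_i ≥ 1` -/
def AdmissibleIndex : List ℕ → Prop
  | [] => False
  | s :: l => 2 ≤ s ∧ ∀ t ∈ l, 1 ≤ t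

/-- the number of arguments `≥ 2` -/
def height (w : List ℕ) : ℕ := w.countP (fun s => decide (2 ≤ s))

lemma trunc_eq (w : List ℕ) : ∀ m, trunc w m = Pool.Agent.Y760.ZG.hr w m := by
  induction w with
  | nil => intro m; rw [trunc, Pool.Agent.Y760.ZG.hr_nil]
  | cons s w ih =>
    intro m
    rw [trunc, Pool.Agent.Y760.ZG.hr_cons]
    exact Finset.sum_congr rfl fun j _ => by rw [ih]

lemma mzv_eq : mzv = Pool.Agent.Y760.ZG.mz := by
  funext w
  cases w with
  | nil => rw [mzv, Pool.Agent.Y760.ZG.mz]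
  | cons s w =>
    rw [mzv, Pool.Agent.Y760.ZG.mz]
    exact tsum_congr fun m => by rw [trunc_eq]

lemma adm_small {u : List ℕ} (h : AdmissibleIndex u) :
    (∀ m ∈ u, 1 ≤ m) ∧ ∀ x ∈ u.head?, 2 ≤ x := by
  cases u with
  | nil => exact h.elim
  | cons s l =>
    refine ⟨fun m hm => ?_, fun x hx => ?_⟩
    · rcases List.mem_cons.1 hm with rfl | hm
      · exact le_trans (by norm_num) h.1
      · exact h.2 m hm
    · rw [List.head?_cons, Option.mem_def, Option.some.injEq] at hx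
      rw [← hx]
      exact h.1

/-- Let `0 < η < 1`, `γ + η < 1`, `ε > 0` and let `κ`, `C` be real. There is `D ≥ 2` such that for every
large `k` there is a set `T` of at least `k ^ η` indices of weight `k` and depth `D`, with all arguments
at least `k / (2 D)`, with the following property. For all integers `a_0` and `c_w`, not all zero, with
`|c_w| ≤ 2 ^ (k ^ γ)` for `w ∈ T`, all finite sets `H` of admissible indices of weight at most `κ k` with
at least `ε k` arguments `≥ 2` and all real `b_h` with `|b_h| ≤ C ^ k`: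
`|a_0 + ∑_T c_w ζ(w) - ∑_H b_h ζ(h)| > k ^ (-ε k)`. -/
theorem result (γ ε κ C η : ℝ) (hη : 0 < η) (hη1 : η < 1) (hγ : γ + η < 1) (hε : 0 < ε) :
    ∃ D : ℕ, 2 ≤ D ∧ ∃ k0 : ℕ, ∀ k : ℕ, k0 ≤ k → ∃ T : Finset (List ℕ), (k : ℝ) ^ η ≤ T.card ∧
      (∀ w ∈ T, w.length = D ∧ w.sum = k ∧ ∀ x ∈ w, k ≤ 2 * D * x) ∧
      ∀ (a0 : ℤ) (c : List ℕ → ℤ), (a0 ≠ 0 ∨ ∃ w ∈ T, c w ≠ 0) →
      (∀ w ∈ T, |(c w : ℝ)| ≤ (2 : ℝ) ^ ((k : ℝ) ^ γ)) →
      ∀ H : Finset (List ℕ),
      (∀ h ∈ H, AdmissibleIndex h ∧ (h.sum : ℝ) ≤ κ * k ∧ ε * k ≤ height h) →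
      ∀ b : List ℕ → ℝ, (∀ h ∈ H, |b h| ≤ C ^ k) →
      ((k : ℝ) ^ (ε * k))⁻¹ <
        |a0 + ∑ w ∈ T, (c w : ℝ) * mzv w - ∑ h ∈ H, b h * mzv h| := by
  rw [mzv_eq]
  obtain ⟨D, hD, k0, h0⟩ := Pool.Agent.R404.WZ.asyMF γ ε κ C η hη hη1 hγ hε
  refine ⟨D, hD, k0, fun k hk => ?_⟩
  obtain ⟨T, hT1, hT2, hT3⟩ := h0 k hk
  exact ⟨T, hT1, hT2, fun a0 c hac hc H hH b hb => hT3 a0 c hac hc H
    (fun h hh => ⟨(adm_small (hH h hh).1).1, (adm_small (hH h hh).1).2, (hH h hh).2.1,
      (hH h hh).2.2⟩) b hb⟩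

end Pool.Agent.Results.MP_56e040_nt.ManyOfOneWeight
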