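import Mathlib
import Pool.Agent.X90.DE.Main
import Pool.Agent.X90.DD.Dist

/-!
# MP_56e040_nt: Zagier's dimensions and the relations between multiple zeta values of weight `k` with a large argument

Let `a_n` be the number of admissible indices of weight `n` (`a_0 = 1`, `a_1 = 0`, `a_n = 2 ^ (n - 2)`) and `Z_n` the
`ℚ`-space spanned by the multiple zeta values of weight `n`. Fix `W` and consider the multiple zeta values of weight `k`
with an argument at least `k - W`; there are `∑_{n ≤ W} 2 ^ (W - n) a_n` of them if `k > 2 W`. For almost all `k` means: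
for all but a bounded number of the `k ∈ [N, κ N]`, for all large `N`; the bound does not depend on the constant `C`.

Theorem (unconditional).
(1) For almost all weights `k` the relations with integer coefficients of absolute value at most `C ^ k` between these
multiple zeta values of weight `k` span a space of dimension `∑_{n ≤ W} 2 ^ (W - n) (a_n - dim Z_n)`.
(2) So Zagier's conjecture `dim Z_n = d_n` for all `n` holds if and only if, for all `W` and almost all weights `k`, the
relations of height at most `C ^ k` between the multiple zeta values of weight `k` with an argument at least `k - W` span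
a space of dimension `∑_{n ≤ W} 2 ^ (W - n) (a_n - d_n)`.
(3) For `W = 2` there is no such relation, and for `W = 3` they span a space of dimension one, for almost all `k`.

The starting file `Pool/Agent/Results/MP_e54452_nt/MotivicCount.lean` counts the relations between all multiple zeta
values of weight at most `s + W` with an argument at least `s`, where the dimensions of the sums `Z_0 + ... + Z_m`
appear. Here all the values have the same weight, and the dimensions of the single spaces `Z_n` appear, so that (2) is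
an equivalent form of Q1.

(1) is the unused theorem `main` of `Pool.Agent.X90.DE` (starting library). The order of the arguments is that of
the problem: the first argument belongs to the largest summation variable.
-/

set_option autoImplicit false

namespace Pool.Agent.Results.MP_56e040_nt.RelationsOneLargeArgument

/-- `trunc [s_1, ..., s_r] m` is the sum of `∏ n_i ^ (-s_i)` over `m > n_1 > ... > n_r ≥ 1` -/
noncomputable def trunc : List ℕ → ℕ → ℝ
  | [], _ => 1
  | s :: l, m => ∑ j ∈ Finset.Ico 1 m, trunc l j / (j : ℝ) ^ s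

/-- the multiple zeta value `ζ(s_1, ..., s_r)`, the sum of `∏ n_i ^ (-s_i)` over
`n_1 > ... > n_r ≥ 1`; `ζ() = 1` -/
noncomputable def mzv : List ℕ → ℝ
  | [] => 1
  | s :: l => ∑' m : ℕ, trunc l (m + 1) / ((m + 1 : ℕ) : ℝ) ^ s

/-- admissible indices: the empty index and `(s_1, ..., s_r)` with `s_1 ≥ 2` and all `s_i ≥ 1` -/
def Admissible : List ℕ → Prop
  | [] => True
  | s :: l => 2 ≤ s ∧ ∀ t ∈ l, 1 ≤ t

/-- the space `Z_n` spanned by the multiple zeta values of weight `n` -/
noncomputable def weightSpace (n : ℕ) : Submodule ℚ ℝ :=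
  Submodule.span ℚ (mzv '' {p | Admissible p ∧ p.sum = n})

/-- the number of admissible indices of weight `n` -/
def numIndices : ℕ → ℕ
  | 0 => 1
  | 1 => 0
  | n + 2 => 2 ^ n

/-- Zagier's numbers `d_0 = 1`, `d_1 = 0`, `d_2 = 1`, `d_n = d_(n - 2) + d_(n - 3)` -/
def zagier : ℕ → ℕ
  | 0 => 1
  | 1 => 0
  | 2 => 1
  | n + 3 => zagier (n + 1) + zagier n

/-- the `ℚ`-space spanned by the relations `∑ c_w ζ(w) = 0`, with integers `c_w` of absolute value at most `B`, between
the multiple zeta values of weight `k` with an argument at least `k - W` -/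
noncomputable def relationSpace (W k : ℕ) (B : ℝ) : Submodule ℚ (List ℕ →₀ ℚ) :=
  Submodule.span ℚ {c | (∀ w ∈ c.support, Admissible w ∧ w.sum = k ∧ ∃ t ∈ w, k ≤ t + W) ∧
    (∀ w, ∃ z : ℤ, c w = z ∧ |(z : ℝ)| ≤ B) ∧ c.sum (fun w x => (x : ℝ) * mzv w) = 0}

/-- for all `κ` there is `K` such that for all `C > 1` and all sufficiently large `N`, `P C k` holds
for all but at most `K` of the `k ∈ [N, κ N]` -/
def AlmostAll (P : ℝ → ℕ → Prop) : Prop :=
  ∀ κ : ℕ, ∃ K : ℕ, ∀ C : ℝ, 1 < C → ∃ N0 : ℕ, ∀ N : ℕ, N0 ≤ N →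
    {k : ℕ | (N ≤ k ∧ k ≤ κ * N) ∧ ¬ P C k}.ncard ≤ K

open Finset
open Pool.Agent.X90.DB (Ad)
open Pool.Agent.X90.DD (WS)
open Pool.Agent.X90.DE (relS Fam na ad mem_ad)

theorem trunc_eq : ∀ l m, trunc l m = Pool.Agent.Y760.ZG.hr l m := by
  intro l
  induction l with
  | nil => intro m; rw [trunc, Pool.Agent.Y760.ZG.hr]
  | cons s l ih =>
    intro m
    rw [trunc, Pool.Agent.Y760.ZG.hr]
    exact Finset.sum_congr rfl fun j _ => by rw [ih]

theorem mzv_eq : ∀ l, mzv l = Pool.Agent.Y760.ZG.mz l := by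
  intro l
  cases l with
  | nil => rw [mzv, Pool.Agent.Y760.ZG.mz]
  | cons s l =>
    rw [mzv, Pool.Agent.Y760.ZG.mz]
    exact tsum_congr fun k => by rw [trunc_eq]

theorem mzv_fun : mzv = Pool.Agent.Y760.ZG.mz := funext mzv_eq

theorem adm_iff : ∀ u, Admissible u ↔ (u = [] ∨ Ad u) := by
  intro u
  cases u with
  | nil => exact ⟨fun _ => Or.inl rfl, fun _ => trivial⟩
  | cons a l => exact ⟨fun h => Or.inr h, fun h => h.resolve_left (List.cons_ne_nil _ _)⟩

theorem num_eq : ∀ n, numIndices n = na n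
  | 0 => rfl
  | 1 => rfl
  | _ + 2 => rfl

theorem weightSpace_eq (n : ℕ) : weightSpace n = WS n := by
  rw [weightSpace, WS, mzv_fun]
  simp only [adm_iff]

theorem relationSpace_eq (W k : ℕ) (B : ℝ) : relationSpace W k B = relS W k B := by
  rw [relationSpace, relS, mzv_fun]
  simp only [adm_iff, Fam]

theorem almost_of {P : ℝ → ℕ → Prop} (h : ∀ κ : ℕ, ∃ K : ℕ, ∀ C : ℝ, 1 < C → ∃ N0 : ℕ, ∀ N : ℕ,
    N0 ≤ N → ∀ B : Finset ℕ, (∀ s ∈ B, (N ≤ s ∧ s ≤ κ * N) ∧ ¬ P C s) → B.card ≤ K) :
    AlmostAll P := by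
  intro κ
  obtain ⟨K, hK⟩ := h κ
  refine ⟨K, fun C hC => ?_⟩
  obtain ⟨N0, hN0⟩ := hK C hC
  refine ⟨N0, fun N hN => ?_⟩
  have hfin : {s : ℕ | (N ≤ s ∧ s ≤ κ * N) ∧ ¬ P C s}.Finite := by
    refine (Finset.Icc N (κ * N)).finite_toSet.subset ?_
    rintro s ⟨hs, -⟩
    exact Finset.mem_coe.2 (Finset.mem_Icc.2 hs)
  rw [Set.ncard_eq_toFinset_card _ hfin]
  refine hN0 N hN hfin.toFinset fun k hk => ?_
  rw [Set.Finite.mem_toFinset] at hk
  exact hk

theorem AlmostAll.mono {P Q : ℝ → ℕ → Prop} (h : AlmostAll P) (hPQ : ∀ C s, P C s → Q C s) :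
    AlmostAll Q := by
  intro κ
  obtain ⟨K, hK⟩ := h κ
  refine ⟨K, fun C hC => ?_⟩
  obtain ⟨N0, hN0⟩ := hK C hC
  refine ⟨N0, fun N hN => (Set.ncard_le_ncard ?_ ?_).trans (hN0 N hN)⟩
  · rintro s ⟨hs, hs'⟩
    exact ⟨hs, fun hP => hs' (hPQ C s hP)⟩
  · refine (Finset.Icc N (κ * N)).finite_toSet.subset ?_
    rintro s ⟨hs, -⟩
    exact Finset.mem_coe.2 (Finset.mem_Icc.2 hs)

theorem AlmostAll.and {P Q : ℝ → ℕ → Prop} (h : AlmostAll P) (h' : AlmostAll Q) :
    AlmostAll fun C s => P C s ∧ Q C s := by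
  intro κ
  obtain ⟨K, hK⟩ := h κ
  obtain ⟨K', hK'⟩ := h' κ
  refine ⟨K + K', fun C hC => ?_⟩
  obtain ⟨N0, hN0⟩ := hK C hC
  obtain ⟨N0', hN0'⟩ := hK' C hC
  refine ⟨N0 + N0', fun N hN => ?_⟩
  have hfin : ∀ Q : ℕ → Prop, {s : ℕ | (N ≤ s ∧ s ≤ κ * N) ∧ Q s}.Finite := by
    intro Q
    refine (Finset.Icc N (κ * N)).finite_toSet.subset ?_
    rintro s ⟨hs, -⟩
    exact Finset.mem_coe.2 (Finset.mem_Icc.2 hs)
  have h3 : {s : ℕ | (N ≤ s ∧ s ≤ κ * N) ∧ ¬ (P C s ∧ Q C s)} ⊆
      {s : ℕ | (N ≤ s ∧ s ≤ κ * N) ∧ ¬ P C s} ∪ {s : ℕ | (N ≤ s ∧ s ≤ κ * N) ∧ ¬ Q C s} := by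
    rintro s ⟨hs, hs'⟩
    by_cases h : P C s
    · exact Or.inr ⟨hs, fun hQ => hs' ⟨h, hQ⟩⟩
    · exact Or.inl ⟨hs, h⟩
  refine (Set.ncard_le_ncard h3 ((hfin _).union (hfin _))).trans
    ((Set.ncard_union_le _ _).trans ?_)
  have h1 := hN0 N (by omega)
  have h2 := hN0' N (by omega)
  omega

/-- almost all is at least one -/
theorem AlmostAll.exists {P : ℝ → ℕ → Prop} (h : AlmostAll P) : ∃ s, P 2 s := by
  obtain ⟨K, hK⟩ := h 2
  obtain ⟨N0, hN0⟩ := hK 2 one_lt_two
  by_contra hcon
  push Not at hcon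
  have h1 := hN0 (N0 + K) (by omega)
  have h2 : {s : ℕ | (N0 + K ≤ s ∧ s ≤ 2 * (N0 + K)) ∧ ¬ P 2 s} =
      ((Finset.Icc (N0 + K) (2 * (N0 + K)) : Finset ℕ) : Set ℕ) := by
    ext s
    rw [Finset.mem_coe, Finset.mem_Icc]
    exact ⟨fun h => h.1, fun h => ⟨h, hcon s⟩⟩
  rw [h2, Set.ncard_coe_finset, Nat.card_Icc] at h1
  omega

theorem finrank_weightSpace (n : ℕ) : Module.finrank ℚ (weightSpace n) = Module.finrank ℚ (WS n) := by
  rw [weightSpace_eq]

/-- (1) -/
theorem dims (W : ℕ) : AlmostAll fun C k =>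
    Module.finrank ℚ (relationSpace W k (C ^ k)) +
      ∑ n ∈ range (W + 1), 2 ^ (W - n) * Module.finrank ℚ (weightSpace n) =
        ∑ n ∈ range (W + 1), 2 ^ (W - n) * numIndices n := by
  refine almost_of fun κ => ?_
  obtain ⟨K, hK⟩ := Pool.Agent.X90.DE.main W κ
  refine ⟨K, fun C hC => ?_⟩
  obtain ⟨N0, hN0⟩ := hK C hC
  refine ⟨N0, fun N hN B hB => hN0 N hN B fun s hs => ⟨(hB s hs).1, fun h => (hB s hs).2 ?_⟩⟩
  rw [relationSpace_eq]
  simp only [num_eq, finrank_weightSpace]
  exact h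

/-- the weighted sums determine the numbers -/
theorem eq_of_sums (x y : ℕ → ℕ) (h : ∀ W, ∑ n ∈ range (W + 1), 2 ^ (W - n) * x n =
    ∑ n ∈ range (W + 1), 2 ^ (W - n) * y n) : ∀ n, x n = y n := by
  have step : ∀ (z : ℕ → ℕ) (W : ℕ), ∑ n ∈ range (W + 2), 2 ^ (W + 1 - n) * z n =
      2 * ∑ n ∈ range (W + 1), 2 ^ (W - n) * z n + z (W + 1) := by
    intro z W
    rw [sum_range_succ, mul_sum, Nat.sub_self, pow_zero, one_mul]
    congr 1
    refine sum_congr rfl fun n hn => ?_
    rw [mem_range] at hn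
    rw [show W + 1 - n = (W - n) + 1 by omega, pow_succ]
    ring
  intro n
  cases n with
  | zero => simpa using h 0
  | succ W =>
    have h1 := h (W + 1)
    rw [step, step, h W] at h1
    omega

theorem rank_one {V : Submodule ℚ ℝ} {v : ℝ} (hv : v ∈ V) (hv0 : v ≠ 0)
    (h : ∀ x ∈ V, ∃ q : ℚ, x = q * v) : Module.finrank ℚ V = 1 := by
  have h1 : V = Submodule.span ℚ {v} := by
    refine le_antisymm (fun x hx => ?_) ?_
    · obtain ⟨q, rfl⟩ := h x hx
      exact Submodule.mem_span_singleton.2 ⟨q, by rw [Rat.smul_def]⟩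
    · rw [Submodule.span_le, Set.singleton_subset_iff]
      exact hv
  rw [h1]
  exact finrank_span_singleton hv0

theorem rank_zero' : Module.finrank ℚ (weightSpace 0) = 1 := by
  rw [weightSpace_eq]
  refine rank_one (v := 1) (Submodule.subset_span ⟨[], ⟨Or.inl rfl, rfl⟩, ?_⟩) one_ne_zero fun x hx => ?_
  · rw [Pool.Agent.Y760.ZG.mz]
  · obtain ⟨q, rfl⟩ := Pool.Agent.X90.DD.WS_zero hx
    exact ⟨q, by rw [mul_one]⟩

theorem rank_one' : Module.finrank ℚ (weightSpace 1) = 0 := by
  rw [weightSpace_eq]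
  have h1 : WS 1 = ⊥ := by
    rw [Submodule.eq_bot_iff]
    exact fun x hx => Pool.Agent.X90.DD.WS_one hx
  rw [h1]
  exact finrank_bot ℚ ℝ

theorem rank_two' : Module.finrank ℚ (weightSpace 2) = 1 := by
  rw [weightSpace_eq]
  have hA : Ad [2] := ⟨le_rfl, by simp⟩
  exact rank_one (Submodule.subset_span ⟨[2], ⟨Or.inr hA, rfl⟩, rfl⟩)
    (Pool.Agent.X90.DD.mz_ne (Or.inr hA)) fun x hx => Pool.Agent.X90.DD.WS_two hx

theorem rank_three' : Module.finrank ℚ (weightSpace 3) = 1 := by
  rw [weightSpace_eq]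
  have hA : Ad [3] := ⟨by norm_num, by simp⟩
  exact rank_one (Submodule.subset_span ⟨[3], ⟨Or.inr hA, rfl⟩, rfl⟩)
    (Pool.Agent.X90.DD.mz_ne (Or.inr hA)) fun x hx => Pool.Agent.X90.DD.WS_three hx

/-- the relations span a finite-dimensional space -/
theorem rel_finite (W k : ℕ) (B : ℝ) : Module.Finite ℚ (relationSpace W k B) := by
  classical
  set S : Submodule ℚ (List ℕ →₀ ℚ) := Submodule.span ℚ ((fun w => Finsupp.single w (1 : ℚ)) ''
    ((ad k : Finset (List ℕ)) : Set (List ℕ))) with hS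
  have h1 : Module.Finite ℚ S := by
    rw [hS]
    exact Module.Finite.span_of_finite ℚ (Set.Finite.image _ (Finset.finite_toSet _))
  have h2 : relationSpace W k B ≤ S := by
    rw [relationSpace, Submodule.span_le]
    rintro c ⟨hc, -, -⟩
    rw [SetLike.mem_coe, ← Finsupp.sum_single c, Finsupp.sum]
    refine Submodule.sum_mem _ fun w hw => ?_
    have h3 : Finsupp.single w (c w) = c w • Finsupp.single w (1 : ℚ) := by
      rw [Finsupp.smul_single, smul_eq_mul, mul_one]
    rw [h3]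
    refine Submodule.smul_mem _ _ (Submodule.subset_span ⟨w, ?_, rfl⟩)
    obtain ⟨g1, g2, -⟩ := hc w hw
    exact Finset.mem_coe.2 (mem_ad.2 ⟨(adm_iff w).1 g1, g2⟩)
  exact Submodule.finiteDimensional_of_le h2

/-- (1) For all `W` and almost all weights `k` the relations with integer coefficients at most `C ^ k` between the
multiple zeta values of weight `k` with an argument at least `k - W` span a space of dimension
`∑_{n ≤ W} 2 ^ (W - n) (a_n - dim Z_n)`, where `a_n` is the number of admissible indices of weight `n`.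
(2) `dim Z_n = d_n` for all `n` if and only if for all `W` and almost all weights `k` this dimension is
`∑_{n ≤ W} 2 ^ (W - n) (a_n - d_n)`.
(3) It is `0` for `W = 2` and `1` for `W = 3`, for almost all `k`. -/
theorem result :
    (∀ W : ℕ, AlmostAll fun C k => Module.finrank ℚ (relationSpace W k (C ^ k)) +
      ∑ n ∈ Finset.range (W + 1), 2 ^ (W - n) * Module.finrank ℚ (weightSpace n) =
        ∑ n ∈ Finset.range (W + 1), 2 ^ (W - n) * numIndices n) ∧
    ((∀ n, Module.finrank ℚ (weightSpace n) = zagier n) ↔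
      ∀ W : ℕ, AlmostAll fun C k => Module.finrank ℚ (relationSpace W k (C ^ k)) +
        ∑ n ∈ Finset.range (W + 1), 2 ^ (W - n) * zagier n =
          ∑ n ∈ Finset.range (W + 1), 2 ^ (W - n) * numIndices n) ∧
    (AlmostAll fun C k => relationSpace 2 k (C ^ k) = ⊥) ∧
    (AlmostAll fun C k => Module.finrank ℚ (relationSpace 3 k (C ^ k)) = 1) := by
  refine ⟨dims, ⟨fun h W => ?_, fun h => ?_⟩, ?_, ?_⟩
  · refine (dims W).mono fun C k h1 => ?_
    simp only [h] at h1
    exact h1
  · refine eq_of_sums _ _ fun W => ?_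
    obtain ⟨k, h1, h2⟩ := ((dims W).and (h W)).exists
    have h3 := h1.trans h2.symm
    exact Nat.add_left_cancel h3
  · refine (dims 2).mono fun C k h1 => ?_
    have h2 : Module.finrank ℚ (relationSpace 2 k (C ^ k)) = 0 := by
      simp only [Finset.sum_range_succ, Finset.sum_range_zero, rank_zero', rank_one', rank_two',
        numIndices] at h1
      omega
    have := rel_finite 2 k (C ^ k)
    exact Submodule.finrank_eq_zero.1 h2
  · refine (dims 3).mono fun C k h1 => ?_
    simp only [Finset.sum_range_succ, Finset.sum_range_zero, rank_zero', rank_one', rank_two', rank_three',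
      numIndices] at h1
    omega

end Pool.Agent.Results.MP_56e040_nt.RelationsOneLargeArgument
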