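import Pool.Agent.N760.SC.C
import Pool.Agent.Results.MP_56e040_nt.RelationsOneLargeArgument

/-!
# MP_56e040_nt: the number of the relations between multiple zeta values of one weight, for weights near the values of multiplicative functions

Let `a_n` be the number of admissible indices of weight `n` (`a_0 = 1`, `a_1 = 0`, `a_n = 2 ^ (n - 2)`) and `Z_n` the
`ℚ`-space spanned by the multiple zeta values of weight `n`. Fix `W` and consider the multiple zeta values of weight `k`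
with an argument at least `k - W`; there are `∑_{n ≤ W} 2 ^ (W - n) a_n` of them if `k > 2 W`. Let `f` be a positive
multiplicative function of at most polynomial growth with `f p ≤ M p` for the large primes `p` and different values at
different large primes; for example Euler's function or the sum of the divisors. Let `G` have steps bounded below by a
positive constant and growth at most `v^d`, for example `G v = α v^d`, and `0 ≤ θ < 1`.

Theorem. For all `m ≤ N` but `N / (log N)^U`, for ALL weights `k` with `|k - G (f m)| ≤ f(m)^θ`: the relations with integer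
coefficients of absolute value at most `C ^ k` between these multiple zeta values of weight `k` span a space of dimension
`∑_{n ≤ W} 2 ^ (W - n) (a_n - dim Z_n)`. There is no such relation for `W = 2`, and for `W = 3` they span a space of
dimension one. Zagier's conjecture `dim Z_n = d_n` holds for all `n` if and only if, for one (or all) such `f`, `G`, `θ`,
`C` and all `W`, `U`, the dimension is `∑_{n ≤ W} 2 ^ (W - n) (a_n - d_n)` for all these weights, for all `m ≤ N` but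
`N / (log N)^U`.

The theorem `RelationsOneLargeArgument` of this page (helper599) shows this for all but a bounded number of the `k` in
`[N, κ N]`. The values of `f` are in general taken with very large multiplicities (and are not values at all for most
integers), and so this does not follow from the number of the exceptional weights. Proof: such functions avoid sets with a
power saving (tool of helper733).
-/

set_option autoImplicit false

namespace Pool.Agent.Results.MP_56e040_nt.MultiplicativeValues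

open Pool.Agent.N733.TG (LM Expanding lm_totient lm_sigma expanding_pow)
open Pool.Agent.Results.MP_56e040_nt.RelationsOneLargeArgument (mzv weightSpace numIndices zagier relationSpace)

/-- the relations, with integer coefficients of absolute value at most `C ^ k`, between the multiple zeta values of weight
`k` with an argument at least `k - W` span a space of dimension `∑_{n ≤ W} 2 ^ (W - n) (a_n - z_n)` -/
def Count (z : ℕ → ℕ) (W : ℕ) (C : ℝ) (k : ℕ) : Prop :=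
  Module.finrank ℚ (relationSpace W k (C ^ k)) + ∑ n ∈ Finset.range (W + 1), 2 ^ (W - n) * z n =
    ∑ n ∈ Finset.range (W + 1), 2 ^ (W - n) * numIndices n

/-- all the statements about the weight `k` -/
def All (W : ℕ) (C : ℝ) (k : ℕ) : Prop :=
  Count (fun n => Module.finrank ℚ (weightSpace n)) W C k ∧ relationSpace 2 k (C ^ k) = ⊥ ∧
    Module.finrank ℚ (relationSpace 3 k (C ^ k)) = 1

lemma bounded (W : ℕ) (C : ℝ) (hC : 1 < C) :
    ∃ K N₀ : ℕ, ∀ N : ℕ, N₀ ≤ N → {k : ℕ | N ≤ k ∧ k ≤ 2 * N ∧ ¬ All W C k}.ncard ≤ K := by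
  obtain ⟨h1, -, h2, h3⟩ := RelationsOneLargeArgument.result
  obtain ⟨K, hK⟩ := ((h1 W).and (h2.and h3)) 2
  obtain ⟨N₀, hN₀⟩ := hK C hC
  refine ⟨K, N₀, fun N hN => le_trans (le_of_eq ?_) (hN₀ N hN)⟩
  congr 1
  ext k
  exact and_assoc.symm

/-- the numbers `z_n` are determined by the sums -/
lemma sum_inj {z z' : ℕ → ℕ} (h : ∀ W : ℕ, ∑ n ∈ Finset.range (W + 1), 2 ^ (W - n) * z n =
    ∑ n ∈ Finset.range (W + 1), 2 ^ (W - n) * z' n) (n : ℕ) : z n = z' n := by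
  induction n using Nat.strong_induction_on with
  | _ n ih =>
    have h1 := h n
    rw [Finset.sum_range_succ, Finset.sum_range_succ, Nat.sub_self, pow_zero, one_mul, one_mul] at h1
    have h2 : ∑ i ∈ Finset.range n, 2 ^ (n - i) * z i = ∑ i ∈ Finset.range n, 2 ^ (n - i) * z' i :=
      Finset.sum_congr rfl fun i hi => by rw [ih i (Finset.mem_range.1 hi)]
    omega

lemma three {N : ℕ} {A B D : Set ℕ} {c : ℝ} (hc : 3 * c < N) (hA : ({m : ℕ | 1 ≤ m ∧ m ≤ N ∧ m ∈ A}.ncard : ℝ) ≤ c)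
    (hB : ({m : ℕ | 1 ≤ m ∧ m ≤ N ∧ m ∈ B}.ncard : ℝ) ≤ c) (hD : ({m : ℕ | 1 ≤ m ∧ m ≤ N ∧ m ∈ D}.ncard : ℝ) ≤ c) :
    ∃ m : ℕ, 1 ≤ m ∧ m ∉ A ∧ m ∉ B ∧ m ∉ D := by
  by_contra hcon
  push Not at hcon
  have hfin : ∀ A : Set ℕ, {m : ℕ | 1 ≤ m ∧ m ≤ N ∧ m ∈ A}.Finite := fun A =>
    (Set.finite_Icc 1 N).subset (fun m hm => ⟨hm.1, hm.2.1⟩)
  have h1 : ((Finset.Icc 1 N : Finset ℕ) : Set ℕ) ⊆ {m : ℕ | 1 ≤ m ∧ m ≤ N ∧ m ∈ A} ∪
      ({m : ℕ | 1 ≤ m ∧ m ≤ N ∧ m ∈ B} ∪ {m : ℕ | 1 ≤ m ∧ m ≤ N ∧ m ∈ D}) := by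
    intro m hm
    rw [Finset.mem_coe, Finset.mem_Icc] at hm
    by_cases h2 : m ∈ A
    · exact Or.inl ⟨hm.1, hm.2, h2⟩
    · by_cases h3 : m ∈ B
      · exact Or.inr (Or.inl ⟨hm.1, hm.2, h3⟩)
      · exact Or.inr (Or.inr ⟨hm.1, hm.2, hcon m hm.1 h2 h3⟩)
  have h2 := Set.ncard_le_ncard h1 ((hfin A).union ((hfin B).union (hfin D)))
  rw [Set.ncard_coe_finset, Nat.card_Icc, Nat.add_sub_cancel] at h2
  have h3 := h2.trans ((Set.ncard_union_le _ _).trans (Nat.add_le_add_left (Set.ncard_union_le _ _) _))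
  have h4 : (N : ℝ) ≤ ({m : ℕ | 1 ≤ m ∧ m ≤ N ∧ m ∈ A}.ncard : ℝ) +
      (({m : ℕ | 1 ≤ m ∧ m ≤ N ∧ m ∈ B}.ncard : ℝ) + ({m : ℕ | 1 ≤ m ∧ m ≤ N ∧ m ∈ D}.ncard : ℝ)) := by
    exact_mod_cast h3
  linarith

/-- the values of `f` are large for almost all `m`, and then there is a weight in the window -/
lemma window {G : ℕ → ℝ} {d : ℝ} (hG : Expanding G d) : ∃ v₀ : ℕ, ∀ v : ℕ, v₀ < v → ∀ θ : ℝ, 0 ≤ θ →
    ∃ k : ℕ, 1 ≤ k ∧ |(k : ℝ) - G v| ≤ (v : ℝ) ^ θ := by
  obtain ⟨-, ⟨a, ha, hstep⟩, -⟩ := hG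
  obtain ⟨v₀, hv₀⟩ := exists_nat_ge ((1 + |G 1|) / a + 1)
  refine ⟨v₀, fun v hv θ hθ => ?_⟩
  have hv1 : 1 ≤ v := by omega
  have h1 := Pool.Agent.N733.TG.step_sum hstep le_rfl hv1
  rw [Nat.cast_sub hv1, Nat.cast_one] at h1
  have h2 : (v₀ : ℝ) ≤ v := by exact_mod_cast hv.le
  have h3 : (1 + |G 1|) / a ≤ (v : ℝ) - 1 := by linarith
  rw [div_le_iff₀ ha] at h3
  have h4 : 1 ≤ G v := by
    have := neg_abs_le (G 1)
    linarith
  have h5 : (1 : ℝ) ≤ (v : ℝ) ^ θ := Real.one_le_rpow (by exact_mod_cast hv1) hθ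
  refine ⟨⌈G v⌉₊, ?_, ?_⟩
  · exact Nat.one_le_iff_ne_zero.2 (Nat.ceil_pos.2 (by linarith)).ne'
  · have h6 := Nat.le_ceil (G v)
    have h7 := Nat.ceil_lt_add_one (by linarith : 0 ≤ G v)
    rw [abs_of_nonneg (by linarith)]
    linarith

/-- (1) Let `f` be a function with `LM`, `G` expanding and `0 ≤ θ < 1`. For all `W`, `C > 1` and `U`, for all large `N` and
all `m ≤ N` but at most `N / (log N)^U`, for ALL weights `k ≥ 1` with `|k - G (f m)| ≤ f(m)^θ`: the relations with integer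
coefficients of absolute value at most `C ^ k` between the multiple zeta values of weight `k` with an argument at least
`k - W` span a space of dimension `∑_{n ≤ W} 2 ^ (W - n) (a_n - dim Z_n)`; for `W = 2` there is no such relation, for
`W = 3` they span a space of dimension one.
(2) For every such `f`, `G`, `θ` and `C`: Zagier's conjecture `dim Z_n = d_n` for all `n` is equivalent to the statement that
for all `W` and `U`, for all large `N`, for all `m ≤ N` but at most `N / (log N)^U`, for all weights `k ≥ 1` with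
`|k - G (f m)| ≤ f(m)^θ` this dimension is `∑_{n ≤ W} 2 ^ (W - n) (a_n - d_n)`.
(3) Euler's function and the sum of the divisors satisfy `LM`; `α v^d` with `α > 0`, `d ≥ 1` is expanding. -/
theorem result :
    (∀ f : ℕ → ℕ, LM f → ∀ (G : ℕ → ℝ) (d : ℝ), Expanding G d → ∀ θ : ℝ, 0 ≤ θ → θ < 1 → ∀ (W : ℕ) (C : ℝ), 1 < C →
      ∀ U : ℕ, ∃ N₀ : ℕ, ∀ N : ℕ, N₀ ≤ N →
      ({m : ℕ | 1 ≤ m ∧ m ≤ N ∧ ¬ ∀ k : ℕ, 1 ≤ k → |(k : ℝ) - G (f m)| ≤ (f m : ℝ) ^ θ → All W C k}.ncard : ℝ) ≤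
        N / Real.log N ^ U) ∧
    (∀ f : ℕ → ℕ, LM f → ∀ (G : ℕ → ℝ) (d : ℝ), Expanding G d → ∀ θ : ℝ, 0 ≤ θ → θ < 1 → ∀ C : ℝ, 1 < C →
      ((∀ n, Module.finrank ℚ (weightSpace n) = zagier n) ↔
        ∀ W U : ℕ, ∃ N₀ : ℕ, ∀ N : ℕ, N₀ ≤ N →
        ({m : ℕ | 1 ≤ m ∧ m ≤ N ∧ ¬ ∀ k : ℕ, 1 ≤ k → |(k : ℝ) - G (f m)| ≤ (f m : ℝ) ^ θ →
          Count zagier W C k}.ncard : ℝ) ≤ N / Real.log N ^ U)) ∧
    (LM Nat.totient ∧ LM (fun m => ∑ d ∈ m.divisors, d)) ∧
    ∀ α d : ℝ, 0 < α → 1 ≤ d → Expanding (fun v => α * (v : ℝ) ^ d) d := by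
  have main : ∀ f : ℕ → ℕ, LM f → ∀ (G : ℕ → ℝ) (d : ℝ), Expanding G d → ∀ θ : ℝ, 0 ≤ θ → θ < 1 →
      ∀ (W : ℕ) (C : ℝ), 1 < C → ∀ U : ℕ, ∃ N₀ : ℕ, ∀ N : ℕ, N₀ ≤ N →
      ({m : ℕ | 1 ≤ m ∧ m ≤ N ∧ ¬ ∀ k : ℕ, 1 ≤ k → |(k : ℝ) - G (f m)| ≤ (f m : ℝ) ^ θ → All W C k}.ncard : ℝ) ≤
        N / Real.log N ^ U := by
    intro f hf G d hG θ hθ hθ1 W C hC U
    obtain ⟨N₀, hN₀⟩ := Pool.Agent.N760.SC.keep_one (fun k => ¬ All W C k) (bounded W C hC) hf hG hθ hθ1 U
    refine ⟨N₀, fun N hN => le_trans (le_of_eq ?_) (hN₀ N hN)⟩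
    simp only [not_not]
  refine ⟨main, fun f hf G d hG θ hθ hθ1 C hC => ⟨fun hz W U => ?_, fun h => ?_⟩, ⟨lm_totient, lm_sigma⟩,
    fun α d hα hd => expanding_pow hα hd⟩
  · obtain ⟨N₀, hN₀⟩ := main f hf G d hG θ hθ hθ1 W C hC U
    refine ⟨N₀, fun N hN => le_trans ?_ (hN₀ N hN)⟩
    have hfin : {m : ℕ | 1 ≤ m ∧ m ≤ N ∧ ¬ ∀ k : ℕ, 1 ≤ k → |(k : ℝ) - G (f m)| ≤ (f m : ℝ) ^ θ → All W C k}.Finite :=
      (Set.finite_Icc 1 N).subset (fun m hm => ⟨hm.1, hm.2.1⟩)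
    refine Nat.cast_le.2 (Set.ncard_le_ncard ?_ hfin)
    rintro m ⟨h1, h2, h3⟩
    refine ⟨h1, h2, fun h4 => h3 fun k hk hw => ?_⟩
    have h5 := (h4 k hk hw).1
    have h6 : (fun n => Module.finrank ℚ (weightSpace n)) = zagier := funext hz
    rw [h6] at h5
    exact h5
  · obtain ⟨v₀, hv₀⟩ := window hG
    have key : ∀ W : ℕ, ∑ n ∈ Finset.range (W + 1), 2 ^ (W - n) * Module.finrank ℚ (weightSpace n) =
        ∑ n ∈ Finset.range (W + 1), 2 ^ (W - n) * zagier n := by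
      intro W
      obtain ⟨N₁, hN₁⟩ := main f hf G d hG θ hθ hθ1 W C hC 1
      obtain ⟨N₂, hN₂⟩ := h W 1
      obtain ⟨N₃, hN₃⟩ := Pool.Agent.N760.SC.keep_one (fun s => s ≤ v₀) ⟨0, v₀ + 1, fun N hN => by
        have : {s : ℕ | N ≤ s ∧ s ≤ 2 * N ∧ s ≤ v₀} = ∅ := by
          ext s
          simp only [Set.mem_ofPred_eq, Set.mem_empty_iff_false, iff_false]
          omega
        rw [this, Set.ncard_empty]⟩ hf (expanding_pow (α := 1) (d := 1) one_pos le_rfl) (θ := 0) le_rfl one_pos 1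
      obtain ⟨N₄, hN₄⟩ := Filter.eventually_atTop.1
        ((Real.tendsto_log_atTop.comp (tendsto_natCast_atTop_atTop (R := ℝ))).eventually_ge_atTop 4)
      obtain ⟨N, hN⟩ : ∃ N, N = max (max N₁ N₂) (max (max N₃ N₄) 1) := ⟨_, rfl⟩
      have b1 : N₁ ≤ N := by rw [hN]; exact le_trans (le_max_left _ _) (le_max_left _ _)
      have b2 : N₂ ≤ N := by rw [hN]; exact le_trans (le_max_right _ _) (le_max_left _ _)
      have b3 : N₃ ≤ N := by
        rw [hN]; exact le_trans (le_trans (le_max_left _ _) (le_max_left _ _)) (le_max_right _ _)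
      have b4 : N₄ ≤ N := by
        rw [hN]; exact le_trans (le_trans (le_max_right _ _) (le_max_left _ _)) (le_max_right _ _)
      have b5 : 1 ≤ N := by rw [hN]; exact le_trans (le_max_right _ _) (le_max_right _ _)
      have hL : (4 : ℝ) ≤ Real.log N := hN₄ N b4
      have hN1 : (1 : ℝ) ≤ N := by exact_mod_cast b5
      have hc : 3 * ((N : ℝ) / Real.log N ^ 1) < N := by
        rw [pow_one, ← mul_div_assoc, div_lt_iff₀ (by linarith)]
        nlinarith
      obtain ⟨m, hm1, g1, g2, g3⟩ := three hc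
        (A := {m | ¬ ∀ k : ℕ, 1 ≤ k → |(k : ℝ) - G (f m)| ≤ (f m : ℝ) ^ θ → All W C k}) (hN₁ N b1)
        (B := {m | ¬ ∀ k : ℕ, 1 ≤ k → |(k : ℝ) - G (f m)| ≤ (f m : ℝ) ^ θ → Count zagier W C k}) (hN₂ N b2)
        (D := {m | ¬ ∀ s : ℕ, 1 ≤ s → |(s : ℝ) - 1 * (f m : ℝ) ^ (1 : ℝ)| ≤ (f m : ℝ) ^ (0 : ℝ) → ¬ s ≤ v₀}) (hN₃ N b3)
      simp only [Set.mem_ofPred_eq, not_not] at g1 g2 g3
      have h3 : v₀ < f m := by
        have := g3 (f m) (hf.pos m hm1) (by rw [Real.rpow_one, one_mul, sub_self, abs_zero, Real.rpow_zero]; exact zero_le_one)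
        omega
      obtain ⟨k, hk1, hk2⟩ := hv₀ (f m) h3 θ hθ
      have e1 := (g1 k hk1 hk2).1
      have e2 := g2 k hk1 hk2
      unfold Count at e1 e2
      exact Nat.add_left_cancel (e1.trans e2.symm)
    exact sum_inj key

end Pool.Agent.Results.MP_56e040_nt.MultiplicativeValues
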