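import Pool.Agent.Results.MP_56e040_nt.MultiplicativeValues

/-!
# MP_56e040_nt: the number of the relations between multiple zeta values of one weight, for weights near the members of almost all orbits of Euler's function

Let `a_n` be the number of admissible indices of weight `n` (`a_0 = 1`, `a_1 = 0`, `a_n = 2 ^ (n - 2)`) and `Z_n` the
`ℚ`-space spanned by the multiple zeta values of weight `n`. Fix `W` and consider the multiple zeta values of weight `k`
with an argument at least `k - W`. Let `φ_j` be the `j`-th iterate of Euler's function, `φ_0(m) = m`. Let `f` be a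
positive multiplicative function of at most polynomial growth with `f p ≤ M p` for the large primes `p` and different values
at different large primes; for example the identity, Euler's function or the sum of the divisors. Let `G` have steps bounded
below by a positive constant and growth at most `v^d`, for example `G v = α v^d`, and `0 ≤ θ < 1`.

Theorem. (1) There are `K(m)` tending to infinity and a set `M` of natural numbers of density one such that for all `W` and
`C`, for all large `m` in `M`, for all `j ≤ K(m)`, with `v = f(φ_j(m))`, for ALL weights `k` with `|k - G v| ≤ v^θ`: the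
relations with integer coefficients of absolute value at most `C ^ k` between these multiple zeta values of weight `k` span a
space of dimension `∑_{n ≤ W} 2 ^ (W - n) (a_n - dim Z_n)`. There is no such relation for `W = 2`, and for `W = 3` they span a
space of dimension one.
(2) Zagier's conjecture `dim Z_n = d_n` holds for all `n` if and only if, for one (or all) such `f`, `G`, `θ`, `C`, `j`, for
all `W` and almost all `m`, the dimension is `∑_{n ≤ W} 2 ^ (W - n) (a_n - d_n)` for all weights `k` with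
`|k - G (f (φ_j m))| ≤ f(φ_j(m))^θ`.

The iterates of Euler's function are not multiplicative, their values form a thin set and are taken with very large
multiplicities; so this does not follow from the number of the exceptional weights (`RelationsOneLargeArgument`, helper599).
-/

set_option autoImplicit false

namespace Pool.Agent.Results.MP_56e040_nt.TotientOrbits

open Filter
open Pool.Agent.N733.TG (LM Expanding lm_totient lm_sigma expanding_pow)
open Pool.Agent.N760.IT (orb lm_id Few densW)
open Pool.Agent.N826.IT.Orb (AlmostAll almostAll_mono almostAll_iff almostAll_and card_mono')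
open Pool.Agent.Results.MP_56e040_nt.RelationsOneLargeArgument (mzv weightSpace numIndices zagier relationSpace)
open MultiplicativeValues (Count All bounded sum_inj window)

lemma exists_of_almostAll {P : ℕ → Prop} (h : AlmostAll P) : ∃ m : ℕ, 1 ≤ m ∧ P m := by
  classical
  by_contra hcon
  push Not at hcon
  obtain ⟨N₀, hN₀⟩ := (almostAll_iff P).1 h (1 / 2) (by norm_num)
  have h1 := hN₀ (max N₀ 1) (le_max_left _ _)
  have h2 : Finset.Icc 1 (max N₀ 1) ⊆ (Finset.Icc 1 (max N₀ 1)).filter (fun m => ¬ P m) := by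
    intro m hm
    exact Finset.mem_filter.2 ⟨hm, hcon m (Finset.mem_Icc.1 hm).1⟩
  have h3 := le_trans (Nat.cast_le.2 ((Finset.card_le_card h2).trans (card_mono' (fun m hm => hm)))) h1
  rw [Nat.card_Icc, Nat.add_sub_cancel] at h3
  have h5 : (1 : ℝ) ≤ ((max N₀ 1 : ℕ) : ℝ) := by exact_mod_cast le_max_right N₀ 1
  linarith

/-- the members of the orbits are large -/
lemma large {f : ℕ → ℕ} (hf : LM f) (j v₀ : ℕ) : AlmostAll (fun m => v₀ < orb f j m) := by
  classical
  rw [almostAll_iff]
  intro ε hε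
  obtain ⟨N₀, hN₀⟩ := densW hf (θ := 0) le_rfl one_pos (v₀ : ℝ) j ε hε
  have hW : Few (v₀ : ℝ) 0 {v | v ≤ v₀} := by
    intro X hX
    rw [Real.rpow_zero, mul_one]
    refine le_trans (Nat.cast_le.2 (card_mono' (Q := fun v => v ≤ v₀) (dQ := fun v => Nat.decLe v v₀)
      (fun m hm => hm))) ?_
    have h2 : (Finset.Icc 1 X).filter (fun v => v ≤ v₀) ⊆ Finset.Icc 1 v₀ := by
      intro v hv
      rw [Finset.mem_filter, Finset.mem_Icc] at hv
      exact Finset.mem_Icc.2 ⟨hv.1.1, hv.2⟩
    have h3 := Finset.card_le_card h2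
    rw [Nat.card_Icc, Nat.add_sub_cancel] at h3
    exact_mod_cast h3
  refine ⟨N₀, fun N hN => le_trans (Nat.cast_le.2 (card_mono' ?_)) (hN₀ N hN _ hW)⟩
  intro m hm
  exact not_lt.1 hm

/-- one place of the orbits -/
lemma one_place {f : ℕ → ℕ} (hf : LM f) {G : ℕ → ℝ} {d : ℝ} (hG : Expanding G d) {θ : ℝ} (hθ : 0 ≤ θ) (hθ1 : θ < 1)
    (W : ℕ) (C : ℝ) (hC : 1 < C) (j : ℕ) :
    AlmostAll (fun m => ∀ k : ℕ, 1 ≤ k → |(k : ℝ) - G (orb f j m)| ≤ (orb f j m : ℝ) ^ θ → All W C k) := by
  obtain ⟨K, hK, hK2⟩ := Pool.Agent.N760.SC.orbit_one (fun _ k => ¬ All W C k) (fun _ => bounded W C hC) hf hG hθ hθ1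
  obtain ⟨m₀, hm₀⟩ := Filter.eventually_atTop.1 (hK.eventually_ge_atTop j)
  have h1 : AlmostAll (fun m => m₀ < m) := large lm_id 0 m₀
  refine almostAll_mono (almostAll_and hK2 h1) (fun m hm k hk hw => ?_)
  by_contra hcon
  exact hm.1 j (hm₀ m hm.2.le) 0 (Nat.zero_le _) k hk hw hcon

/-- (1) `orb f j m` is `f(φ_j(m))`, `φ_j` the `j`-th iterate of Euler's function, `φ_0(m) = m`. Let `f` be a function with
`LM`, `G` expanding and `0 ≤ θ < 1`. There are `K(m)` tending to infinity and a set `M` of natural numbers of density one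
such that for all `W` and all natural `C ≥ 2`, for all large `m` in `M`, for all `j ≤ K(m)`, with `v = f(φ_j(m))`, for ALL
weights `k ≥ 1` with `|k - G v| ≤ v^θ`: the relations with integer coefficients of absolute value at most `C ^ k` between the
multiple zeta values of weight `k` with an argument at least `k - W` span a space of dimension
`∑_{n ≤ W} 2 ^ (W - n) (a_n - dim Z_n)`; for `W = 2` there is no such relation, for `W = 3` they span a space of dimension
one.
(2) For every such `f`, `G`, `θ`, all real `C > 1` and all `j`: Zagier's conjecture `dim Z_n = d_n` for all `n` is equivalent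
to the statement that for all `W`, for almost all `m`, for all weights `k ≥ 1` with `|k - G v| ≤ v^θ`, `v = f(φ_j(m))`, this
dimension is `∑_{n ≤ W} 2 ^ (W - n) (a_n - d_n)`.
(3) The identity, Euler's function and the sum of the divisors satisfy `LM`; `α v^d` with `α > 0`, `d ≥ 1` is
expanding. -/
theorem result :
    (∀ f : ℕ → ℕ, LM f → ∀ (G : ℕ → ℝ) (d : ℝ), Expanding G d → ∀ θ : ℝ, 0 ≤ θ → θ < 1 →
      ∃ K : ℕ → ℕ, Tendsto K atTop atTop ∧ ∃ M : Set ℕ, AlmostAll (fun m => m ∈ M) ∧
      ∀ W C : ℕ, 2 ≤ C → ∃ m₀ : ℕ, ∀ m ∈ M, m₀ ≤ m → ∀ j ≤ K m, ∀ k : ℕ, 1 ≤ k →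
        |(k : ℝ) - G (orb f j m)| ≤ (orb f j m : ℝ) ^ θ → All W C k) ∧
    (∀ f : ℕ → ℕ, LM f → ∀ (G : ℕ → ℝ) (d : ℝ), Expanding G d → ∀ θ : ℝ, 0 ≤ θ → θ < 1 → ∀ C : ℝ, 1 < C → ∀ j : ℕ,
      ((∀ n, Module.finrank ℚ (weightSpace n) = zagier n) ↔
        ∀ W : ℕ, AlmostAll (fun m => ∀ k : ℕ, 1 ≤ k → |(k : ℝ) - G (orb f j m)| ≤ (orb f j m : ℝ) ^ θ →
          Count zagier W C k))) ∧
    (LM (fun m => m) ∧ LM Nat.totient ∧ LM (fun m => ∑ d ∈ m.divisors, d)) ∧
    ∀ α d : ℝ, 0 < α → 1 ≤ d → Expanding (fun v => α * (v : ℝ) ^ d) d := by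
  refine ⟨fun f hf G d hG θ hθ hθ1 => ?_, fun f hf G d hG θ hθ hθ1 C hC j => ⟨fun hz W => ?_, fun h => ?_⟩,
    ⟨lm_id, lm_totient, lm_sigma⟩, fun α d hα hd => expanding_pow hα hd⟩
  · obtain ⟨e, he⟩ := exists_surjective_nat (ℕ × ℕ)
    obtain ⟨K, hK, hK2⟩ := Pool.Agent.N760.SC.orbit_one
      (fun a k => 2 ≤ (e a).2 ∧ ¬ All (e a).1 (e a).2 k) (fun a => by
        by_cases h : 2 ≤ (e a).2
        · obtain ⟨K, N₀, h1⟩ := bounded (e a).1 ((e a).2 : ℝ) (by
            have : (2 : ℝ) ≤ ((e a).2 : ℝ) := by exact_mod_cast h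
            linarith)
          refine ⟨K, N₀, fun N hN => le_trans (Set.ncard_le_ncard ?_ ?_) (h1 N hN)⟩
          · rintro s ⟨g1, g2, g3⟩
            exact ⟨g1, g2, g3.2⟩
          · exact (Set.finite_Icc N (2 * N)).subset (fun s hs => ⟨hs.1, hs.2.1⟩)
        · refine ⟨0, 0, fun N _ => ?_⟩
          have : {s : ℕ | N ≤ s ∧ s ≤ 2 * N ∧ (2 ≤ (e a).2 ∧ ¬ All (e a).1 (e a).2 s)} = ∅ := by
            ext s
            simp only [Set.mem_ofPred_eq, Set.mem_empty_iff_false, iff_false]
            rintro ⟨-, -, h1⟩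
            exact h h1.1
          rw [this, Set.ncard_empty]) hf hG hθ hθ1
    refine ⟨K, hK, _, hK2, fun W C hC => ?_⟩
    obtain ⟨a, ha⟩ := he (W, C)
    obtain ⟨m₀, hm₀⟩ := Filter.eventually_atTop.1 (hK.eventually_ge_atTop a)
    refine ⟨m₀, fun m hm hmm j hj k hk hw => ?_⟩
    have h1 := hm j hj a (hm₀ m hmm) k hk hw
    rw [ha] at h1
    by_contra hcon
    exact h1 ⟨hC, hcon⟩
  · refine almostAll_mono (one_place hf hG hθ hθ1 W C hC j) (fun m hm k hk hw => ?_)
    have h5 := (hm k hk hw).1
    have h6 : (fun n => Module.finrank ℚ (weightSpace n)) = zagier := funext hz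
    rw [h6] at h5
    exact h5
  · obtain ⟨v₀, hv₀⟩ := window hG
    refine sum_inj (fun W => ?_)
    obtain ⟨m, -, ⟨g1, g2⟩, g3⟩ := exists_of_almostAll
      (almostAll_and (almostAll_and (one_place hf hG hθ hθ1 W C hC j) (h W)) (large hf j v₀))
    obtain ⟨k, hk1, hk2⟩ := hv₀ _ g3 θ hθ
    have e1 := (g1 k hk1 hk2).1
    have e2 := g2 k hk1 hk2
    unfold Count at e1 e2
    exact Nat.add_left_cancel (e1.trans e2.symm)

end Pool.Agent.Results.MP_56e040_nt.TotientOrbits
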